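import Pool.Agent.P8H64.ZF.BndP
import Pool.Agent.P8H64.ZF.Eul

set_option autoImplicit false

/-!
# Continuation of L-functions of varieties and counting invertible matrices with prescribed zeros
(MP_039d94_nt, Q1)

Definitions. `cntC X p k` is the number of points of the scheme `X` over `ℤ` in the field with `p ^ (k + 1)`
elements (`Pool/Agent/P8H64/ZF/Cnt.lean`, `BndZ.lean`); `invCount`, `lapCount`, `lapZero`, `triCount` and the
list `Crit` of statements are in `Comb.lean`; `Mero` (the zeta function has a meromorphic continuation) in
`Ser.lean`; `WeilData`, `LW` (the L-function of weight `w`), `LClass`, `PL` in `Lw.lean`, `ps`, `part'`, `mass`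
in `Wd.lean`; `Cont` in `Edge.lean`; `Deligne` in `BndP.lean`; the Euler factors `eul` in `Eul.lean`.
`Sch ℤ`, `FT` (finite type, separated if `sep` holds) are in `Pool/Agent/Y116/UV/Defs.lean`, `lap` (the
weighted Laplacian of a graph without the row and the column of the vertex `0`) and `ConeSplit` in
`Pool/Agent/P8H64/GH/Graph.lean`.

Relation to Q1. Let `X` be smooth and projective over `ℚ` with a smooth projective model over `ℤ[1/N]`,
considered as a scheme of finite type over `ℤ`. By Grothendieck and Deligne its numbers of points have the
Weil data `m p = ∑ (-1) ^ i (the eigenvalues of F_p on H ^ i)` for `p` prime to `N`, and `m p = 0` for `p`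
dividing `N`; the part of absolute value `p ^ (w / 2)` is that of `H ^ w`, so `LW m w s` is
`∏_{p ∤ N} L_p(X, s) ^ ((-1) ^ w)` for `i = w` (`hasProd_eul`). The factors `L_p` at the bad primes are
rational functions of `p ^ (-s)`. So the first statement of the list for `PL Cont` contains the
meromorphic continuation asserted in Q1 for all `X` and `i`, and it is equivalent to it (with the edge
condition) by resolution of singularities.

Proof. 1. The property `P` of `X` that the zeta function (the L-functions of all weights) of `X` are in the
class is closed under closed-open decompositions, as the number of points is additive; it passes in both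
directions between a quasi-affine scheme and Jouanolou's affine bundle over it, as the numbers of points
differ by a power of `q`. 2. From `X × 𝔾_m` to `X`: for zeta functions
`ζ_X(s) = ζ_{X × 𝔾_m}(s + 1) ζ_X(s + 1)`, so `ζ_X(s) = ∏_{j = 1}^{n} ζ_{X × 𝔾_m}(s + j) ζ_X(s + n)` continues
`ζ_X` step by step to the plane (`mero_torus`); for the L-functions of the weights
`L_w(X, s) = L_{w - 2}(X, s - 1) / L_w(X × 𝔾_m, s)`, by induction on `w` (`pl_torus`). 3. Every such property
is decided by the complements of the graph hypersurfaces and by the schemes of the invertible matrices with
prescribed zeros (`univ_gl`, `univ_cone`, `Pool/Agent/P8H64/GH`) and by the hypersurfaces of tripartite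
hypergraphs (`universal_int`). -/

namespace Pool.Agent.Results.MP_039d94_nt.GraphZetaFunctions

open Pool.Agent.P8H64.ZF

/-- (A) The following are equivalent: the zeta function `exp (∑_p ∑_k #X(𝔽_{p^k}) p ^ (-k s) / k)` has a
meromorphic continuation to the plane

1. for all (separated) schemes of finite type over `ℤ`;
2. for all smooth ones;
3. for the numbers of invertible `n × n` matrices over `𝔽_{p^k}` with zeros outside of `S`, for all `n` and
  all sets `S` of places;
4. for the numbers of weightings with values in `𝔽_{p^k}` of the edges of `G` whose reduced Laplacian is
  invertible, for all finite graphs `G`;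
5. the same for the cones `G` over split graphs;
6., 7. as 4 and 5 for the weightings whose reduced Laplacian is singular;
8. for the numbers of solutions of `∑_{(i, j, l) ∈ H} x_i y_j z_l = 1` for all finite sets `H` of triples.

(B) Assume the theorem of Deligne. For every class `𝓛` of functions (of weights `w`, considered only for
`Re s > w / 2 + 1`) which contains `1` (all weights) and the zeta function (weight zero) and is closed
under products, inverses and the shift, the same eight statements are equivalent with the statement that
the L-functions of all weights `w` are in the class.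

(C) An example of such a class: the functions with a meromorphic continuation to the plane without
zeros and poles with `Re s ≥ w / 2 + 1`, except possibly at `s = w / 2 + 1` if `w` is even.

(D) The L-function of weight `w` is for `Re s > w / 2 + 1` the product over `p` of
`∏_α (1 - α p ^ (-s)) ^ (-m(α))`, `|α| = p ^ (w / 2)`. -/
theorem result (sep : Prop) :
    (Crit sep Mero).TFAE ∧
    (∀ 𝓛 : ℕ → (ℂ → ℂ) → Prop, LClass 𝓛 → Deligne sep → (Crit sep (PL 𝓛)).TFAE) ∧
    LClass Cont ∧
    (∀ (C : ℕ) (m : Nat.Primes → ℂ →₀ ℤ), (∀ p, mass (m p) ≤ C) → ∀ (w : ℕ) (s : ℂ),
      (w : ℝ) / 2 + 1 < s.re → HasProd (eul m w s) (LW m w s)) :=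
  ⟨crit_tfae (bnd_zmero sep), fun _ h𝓛 hD => crit_tfae (bnd_pl h𝓛 hD), lclass_cont,
    fun _ _ hm w _ hs => hasProd_eul hm w hs⟩

end Pool.Agent.Results.MP_039d94_nt.GraphZetaFunctions
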