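import Pool.Agent.P8H9.RD.Fin

/-!
# MP_039d94_nt, Q1: the limit law of the `L`-functions of hyperelliptic curves is carried by functions
# with the natural boundary `Re s = 1`

Let `f ∈ ℤ[x]` be monic of odd degree `d ≥ 3` and let `2 ≤ k ≤ d`. The members of the family are the curves
`C_c : y² = f(x) + c_{k-1} x^{k-1} + … + c_1 x + c_0`, `c ∈ ℤ^k`; for `f = x^d` and `k = d` these are all
curves `y² = x^d + c_{d-1} x^{d-1} + … + c_0`. The functions `L(H¹(C_c), s)` (Euler products over the
primes of good reduction) converge for `Re s > 3/2` and conjecturally continue to `ℂ`. The theorem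
determines their limit law in the space of continuous functions on the half plane `Re s > 3/2` (with the
topology of uniform convergence on compact sets) and shows that almost every function drawn from the limit
law continues, without zeros, to `Re s > 1`, but has no meromorphic continuation to a neighbourhood of any
point of the line `Re s = 1`.
-/

set_option autoImplicit false

open Polynomial Filter Topology MeasureTheory Pool.Agent.P8H9.AV Pool.Agent.P8H9.RD

namespace Pool.Agent.Results.MP_039d94_nt.LimitLawNaturalBoundary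

/-- **The limit law of the functions `L(H¹(C_c), s)` has the natural boundary `Re s = 1`.**  Let
`f ∈ ℤ[x]` be monic of odd degree `d`, `2 ≤ k ≤ d`, `C_c : y² = f(x) + ∑_{j < k} c_j x^j`.  Let
`ω = (ω_p)_p` be random, the `ω_p ∈ (ℤ/p)^k` independent and uniformly distributed (`mu k`), and let
`LHat f ω s` be the Euler product whose factor at `p` is the Euler factor at `p` of `L(H¹(C_c), s)`,
`c` reducing to `ω_p` modulo `p`.

* `mu k` is a probability measure.
* The functions `Λ ω = LHat f ω` and `L c = L(H¹(C_c), ·)` are continuous on the half plane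
  `Re s > 3/2`, and for every continuous function `Φ` on the space of the continuous functions on this
  half plane (topology of uniform convergence on compact sets) the mean of `Φ (L c)` over the
  `c ∈ ℤ^k` in a box `|c_j| ≤ H_j` tends to the expectation of `Φ (Λ ω)` as all `H_j` tend to infinity.
* For almost every `ω`, `Λ ω` continues to a holomorphic function without zeros on `Re s > 1`.
* For almost every `ω`, `Λ ω` has no meromorphic continuation to the union of the half plane `Re s > 1`
  and a disc around a point of the line `Re s = 1`. -/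
theorem result (f : ℤ[X]) (hf : f.Monic) (hodd : Odd f.natDegree) (k : ℕ) (hk2 : 2 ≤ k)
    (hk : k ≤ f.natDegree) :
    IsProbabilityMeasure (mu k) ∧
    (∃ (Λ : Om k → C({s : ℂ // 3 / 2 < s.re}, ℂ)) (L : (Fin k → ℤ) → C({s : ℂ // 3 / 2 < s.re}, ℂ)),
      (∀ ω s, Λ ω s = LHat f ω s) ∧ (∀ c s, L c s = LH1 (member f c) s) ∧
      ∀ Φ : C({s : ℂ // 3 / 2 < s.re}, ℂ) → ℂ, Continuous Φ →
        Integrable (fun ω => Φ (Λ ω)) (mu k) ∧
        Tendsto (fun H : Fin k → ℕ => mean H fun c => Φ (L c)) atTop
          (𝓝 (∫ ω, Φ (Λ ω) ∂(mu k)))) ∧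
    (∀ᵐ ω ∂(mu k), ∃ G : ℂ → ℂ, DifferentiableOn ℂ G {s : ℂ | 1 < s.re} ∧
      (∀ s : ℂ, 1 < s.re → G s ≠ 0) ∧ ∀ s : ℂ, 3 / 2 < s.re → G s = LHat f ω s) ∧
    ∀ᵐ ω ∂(mu k), ∀ (w : ℂ) (r : ℝ), w.re = 1 → 0 < r →
      ¬ ∃ F : ℂ → ℂ, MeromorphicOn F ({s : ℂ | 1 < s.re} ∪ Metric.ball w r) ∧
        ∀ s : ℂ, 3 / 2 < s.re → F s = LHat f ω s :=
  ⟨inferInstance, law hf hodd hk, continues hf hodd hk2 hk, boundary hf hodd hk2 hk⟩

end Pool.Agent.Results.MP_039d94_nt.LimitLawNaturalBoundary
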