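import Pool.Agent.P8H9.AV.Fin

/-!
# MP_039d94_nt, Q1 on average over the hyperelliptic curves with a Weierstrass point at infinity

Let `f ∈ ℤ[x]` be monic of odd degree `d` and let `1 ≤ k ≤ d`. The members of the family are the curves
`C_c : y² = f(x) + c_{k-1} x^{k-1} + … + c_1 x + c_0`, `c ∈ ℤ^k`; for `f = x^d` and `k = d` these are all
curves `y² = x^d + c_{d-1} x^{d-1} + … + c_0`. The functions `L(H¹(C_c), s)` (Euler products over the
primes of good reduction) converge for `Re s > 3/2`. The theorem says that their mean over `c` is a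
function with a holomorphic continuation to `Re s > 1/2 + 1/(k + 1)`, that is, beyond the line
`Re s = 1` in the centre of the critical strip if `k ≥ 2`.
-/

set_option autoImplicit false

open Polynomial Filter Topology Pool.Agent.P8H9.AV

namespace Pool.Agent.Results.MP_039d94_nt.MeanBeyondTheCentre

/-- **The mean of `L(H¹(C_c), s)` is holomorphic beyond the centre of the critical strip.**  Let
`f ∈ ℤ[x]` be monic of odd degree `d`, `1 ≤ k ≤ d`, `C_c : y² = f(x) + ∑_{j < k} c_j x^j`.  There are a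
function `M` and functions `E_p`, one for every prime `p`, with the following properties.

* For `Re s > 3/2` the mean of `L(H¹(C_c), s)` over the `c ∈ ℤ^k` in a box `|c_j| ≤ H_j` tends to `M(s)`
  as all `H_j` tend to infinity.
* `M` is holomorphic for `Re s > 1/2 + 1/(k + 1)`.
* For `Re s > 1/2` and every finite set `S` of primes the mean over `c` of the product over `p ∈ S` of
  the Euler factors of `L(H¹(C_c), s)` tends to the product of the numbers `E_p(s)`, `p ∈ S`; and for
  `Re s > 1/2 + 1/(k + 1)` the product of the `E_p(s)` over all primes converges to `M(s)`.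
* `M` is real and positive on the real half-line `s > 1/2 + 1/(k + 1)`; in particular at the centre
  `s = 1` if `k ≥ 2`. -/
theorem result (f : ℤ[X]) (hf : f.Monic) (hodd : Odd f.natDegree) (k : ℕ) (hk1 : 1 ≤ k)
    (hk : k ≤ f.natDegree) :
    ∃ (M : ℂ → ℂ) (E : Nat.Primes → ℂ → ℂ),
      (∀ s : ℂ, 3 / 2 < s.re →
        Tendsto (fun H : Fin k → ℕ => mean H fun c => LH1 (member f c) s) atTop (𝓝 (M s))) ∧
      DifferentiableOn ℂ M {s : ℂ | 1 / 2 + 1 / (k + 1 : ℝ) < s.re} ∧
      (∀ (S : Finset Nat.Primes) (s : ℂ), 1 / 2 < s.re →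
        Tendsto (fun H : Fin k → ℕ => mean H fun c => ∏ p ∈ S, eulerFactor (member f c) p s) atTop
          (𝓝 (∏ p ∈ S, E p s))) ∧
      (∀ s : ℂ, 1 / 2 + 1 / (k + 1 : ℝ) < s.re → HasProd (fun p => E p s) (M s)) ∧
      ∀ σ : ℝ, 1 / 2 + 1 / (k + 1 : ℝ) < σ → ∃ r : ℝ, 0 < r ∧ M (σ : ℂ) = r :=
  ⟨Mf f k, Ep f k, fun _ hs => mean_L hf hodd hk hs, Mf_diff hf hodd hk1 hk,
    fun S _ hs => mean_finite hf hodd hk S hs, fun _ hs => Mf_hasProd hf hodd hk1 hk hs,
    fun _ hσ => Mf_pos hf hodd hk1 hk hσ⟩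

end Pool.Agent.Results.MP_039d94_nt.MeanBeyondTheCentre
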