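import Pool.Agent.P8H9.VX.Fin

/-!
# MP_039d94_nt, Q1 on average: products of any variety with powers of hyperelliptic curves

Let `f ∈ ℤ[x]` be monic of odd degree `d`, `1 ≤ k ≤ d`, and `C_c : y² = f(x) + c_{k-1} x^{k-1} + … + c_0`
for `c ∈ ℤ^k`, and let `X` be any smooth projective variety over `ℚ`. By the theorem of Künneth
`H^j(X × C_cⁿ) = ⊕_b H^{j-b}(X) ⊗ H^b(C_cⁿ)`, and its `L`-function converges for `Re s > j/2 + 1`. The
theorem computes the mean over `c` of this `L`-function, and of those of all partial sums over `b ∈ B`,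
up to a factor which is holomorphic to the right of the centre `Re s = (j + 1)/2` of the critical strip:
only the classes which do not depend on `c` contribute, the product of the powers
`L(H^{j-b}(X), s - b/2)^{a(n,b)}`, `b ∈ B` even. So the conjecture for `H^j(X × C_cⁿ)`, on average over
`c` and to the right of the centre, is equivalent to the conjecture for the fixed variety `X`; and the
summands with `b` odd contribute no poles, and no zeros on the real axis.

If `X` is a point and `2 j ≤ k` the theorem gives more: the mean continues meromorphically beyond the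
centre, to `Re s > j/2 + 1/3`; to the right of the centre its only possible pole is `s = j/2 + 1`, and
it is there for `j ≤ 2 n` even but not for `j` odd.
-/

set_option autoImplicit false

open Polynomial Filter Topology Pool.Agent.P8H9.AV Pool.Agent.P8H9.PW Pool.Agent.P8H9.VX

namespace Pool.Agent.Results.MP_039d94_nt.PowersAndProductsInTheMean

/-- **The means of the `L`-functions `L(H^j(X × C_cⁿ), s)`.**  Let `f ∈ ℤ[x]` be monic of odd degree `d`,
`1 ≤ k ≤ d`, `C_c : y² = f(x) + ∑_{l < k} c_l x^l` and `n` arbitrary. Let `P_i ∈ ℤ[T]` be the coefficient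
of `Xⁱ` in `(1 + T X + X²)ⁿ`, let `g` be a standard normal variable, `a(n,i) = E[P_i(g)]` and
`b(n,i) = (E[P_i(g)²] + E[P_i(-1 + √2 g)] - a(n,i) (a(n,i) + 1)) / 2`, both integers.  All means are over
the `c` in the box `|c_l| ≤ H_l`.

* (Second part of the formal statement.) Let `X` be a projective variety over `ℚ` (`IsFrobenius` gives
  the eigenvalues of Frobenius on its cohomology at the primes outside the finite set `S`, and `Nb k` is
  the `k`-th Betti number). Let `B` be a set of numbers `b ≤ j` with `b ≤ k` or `n ≤ k`. There is a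
  function `G`, holomorphic for `Re s > (j + 1)/2` and positive at the real points of this half-plane,
  such that for `Re s > j/2 + 1` the mean of `L(⊕_{b ∈ B} H^{j-b}(X) ⊗ H^b(C_cⁿ), s)` tends to
  `G(s) ∏ L(H^{j-b}(X), s - b/2)^{a(n,b)}`, the product over the even `b ∈ B`, as all `H_l` tend to
  infinity.
* (First part.) Let `X` be a point, `2 i ≤ k`. There is a function `N`, holomorphic for
  `Re s > i/2 + 1/3` and positive at the real points of this half-plane, such that for
  `Re s > i/2 + 1` the mean of `L(Hⁱ(C_cⁿ), s)` tends to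
  `ζ(s - i/2)^{a(n,i)} ζ(2 s - i)^{b(n,i)} N(s)` as all `H_l` tend to infinity.
* `a(n,i) = 0` for `i` odd and `a(n,i) ≥ binom(n, i/2)` for `i` even. -/
theorem result (f : ℤ[X]) (hf : f.Monic) (hodd : Odd f.natDegree) (k : ℕ) (hk1 : 1 ≤ k)
    (hk : k ≤ f.natDegree) (n : ℕ) :
    (∀ i : ℕ, 2 * i ≤ k → ∃ N : ℂ → ℂ,
      DifferentiableOn ℂ N {s : ℂ | (i : ℝ) / 2 + 1 / 3 < s.re} ∧
      (∀ σ : ℝ, (i : ℝ) / 2 + 1 / 3 < σ → ∃ r : ℝ, 0 < r ∧ N (σ : ℂ) = r) ∧
      ∀ s : ℂ, (i : ℝ) / 2 + 1 < s.re →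
        Tendsto (fun H : Fin k → ℕ => mean H fun c => LHi n i (member f c) s) atTop
          (𝓝 (riemannZeta (s - i / 2) ^ aa n i * riemannZeta (2 * s - i) ^ bb n i * N s))) ∧
    (∀ (ν : ℕ) (V : Set (MvPolynomial (Fin ν) ℤ)) (dX : ℕ) (S : Finset Nat.Primes)
      (β : Nat.Primes → ℕ → Multiset ℂ) (Nb : ℕ → ℕ),
      (∀ p ∉ S, IsFrobenius V dX p (β p) ∧ ∀ k, (β p k).card = Nb k) →
      ∀ (j : ℕ) (B : Finset ℕ), (∀ b ∈ B, b ≤ j ∧ (b ≤ k ∨ n ≤ k)) →
      ∃ G : ℂ → ℂ, DifferentiableOn ℂ G {s : ℂ | ((j : ℝ) + 1) / 2 < s.re} ∧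
      (∀ σ : ℝ, ((j : ℝ) + 1) / 2 < σ → ∃ r : ℝ, 0 < r ∧ G (σ : ℂ) = r) ∧
      ∀ s : ℂ, (j : ℝ) / 2 + 1 < s.re →
        Tendsto (fun H : Fin k → ℕ => mean H fun c => LXC S β B n j (member f c) s) atTop
          (𝓝 ((∏ b ∈ B with Even b, LX S β (j - b) (s - b / 2) ^ aa n b) * G s))) ∧
    (∀ i : ℕ, Odd i → aa n i = 0) ∧ ∀ h : ℕ, (n.choose h : ℤ) ≤ aa n (2 * h) := by
  refine ⟨fun i hik => ⟨NN n i f k, NN_diff hf hodd hk1 hk hik,
    fun σ hσ => NN_pos hf hodd hk1 hk hik hσ, fun s hs => ?_⟩, ?_, aa_odd n, choose_le_aa n⟩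
  · rw [← mean_eq hf hodd hk hs]
    exact (mean_LH hf hodd hk hs).1
  · intro ν V dX S β Nb hβ j B hB
    obtain ⟨G, h1, h2, h3⟩ := main (j := j) (n := n) hβ hf hodd hk1 hk (B := B) fun b hb =>
      ⟨(hB b hb).1, min_le_iff.2 (hB b hb).2⟩
    refine ⟨G, h1, h2, fun s hs => ?_⟩
    have h4 : ∏ b ∈ B with Even b, LX S β (j - b) (s - b / 2) ^ aa n b =
        ∏ b ∈ B, LX S β (j - b) (s - b / 2) ^ aa n b := by
      rw [Finset.prod_filter]
      refine Finset.prod_congr rfl fun b _ => ?_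
      split_ifs with h
      · rfl
      · rw [aa_odd n b (Nat.not_even_iff_odd.1 h), zpow_zero]
    rw [h4]
    exact h3 s hs

end Pool.Agent.Results.MP_039d94_nt.PowersAndProductsInTheMean
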